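import Mathlib

set_option autoImplicit false

open Set MeasureTheory TopologicalSpace

namespace Pool.Agent.Q203.An

/-- analytic subsets of a standard Borel space: projections of Borel subsets of `α × ℕ^ℕ` -/
def Analytic {α : Type} [MeasurableSpace α] (s : Set α) : Prop :=
  ∃ B : Set (α × (ℕ → ℕ)), MeasurableSet B ∧ s = Prod.fst '' B

theorem analytic_iff {α : Type} [MeasurableSpace α] {s : Set α} : Analytic s ↔
    ∃ B : Set (α × (ℕ → ℕ)), MeasurableSet B ∧ ∀ x, x ∈ s ↔ ∃ c, (x, c) ∈ B := by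
  constructor
  · rintro ⟨B, hB, rfl⟩
    refine ⟨B, hB, fun x => ?_⟩
    simp
  · rintro ⟨B, hB, h⟩
    refine ⟨B, hB, ?_⟩
    ext x
    simp [h]

theorem Analytic.of_measurableSet {α : Type} [MeasurableSpace α] {s : Set α}
    (hs : MeasurableSet s) : Analytic s :=
  analytic_iff.2 ⟨{p | p.1 ∈ s}, measurable_fst hs, fun x => by simp⟩

theorem Analytic.preimage {α β : Type} [MeasurableSpace α] [MeasurableSpace β] {s : Set β}
    (hs : Analytic s) {f : α → β} (hf : Measurable f) : Analytic (f ⁻¹' s) := by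
  obtain ⟨B, hB, h⟩ := analytic_iff.1 hs
  refine analytic_iff.2 ⟨{p | (f p.1, p.2) ∈ B},
    ((hf.comp measurable_fst).prodMk measurable_snd) hB, fun x => ?_⟩
  simp [h]

theorem Analytic.union {α : Type} [MeasurableSpace α] {s t : Set α}
    (hs : Analytic s) (ht : Analytic t) : Analytic (s ∪ t) := by
  obtain ⟨B, hB, h⟩ := analytic_iff.1 hs
  obtain ⟨C, hC, h'⟩ := analytic_iff.1 ht
  refine analytic_iff.2 ⟨B ∪ C, hB.union hC, fun x => ?_⟩
  simp only [mem_union, h, h', exists_or]

theorem Analytic.iUnion {α : Type} [MeasurableSpace α] {s : ℕ → Set α}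
    (hs : ∀ n, Analytic (s n)) : Analytic (⋃ n, s n) := by
  choose B hB h using fun n => analytic_iff.1 (hs n)
  refine analytic_iff.2 ⟨⋃ n, B n, MeasurableSet.iUnion hB, fun x => ?_⟩
  simp only [mem_iUnion, h]
  exact exists_comm

/-- even part -/
def ev (c : ℕ → ℕ) : ℕ → ℕ := fun n => c (2 * n)
/-- odd part -/
def od (c : ℕ → ℕ) : ℕ → ℕ := fun n => c (2 * n + 1)

theorem measurable_ev : Measurable ev := measurable_pi_lambda _ fun _ => measurable_pi_apply _
theorem measurable_od : Measurable od := measurable_pi_lambda _ fun _ => measurable_pi_apply _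

theorem exists_ev_od (a b : ℕ → ℕ) : ∃ c, ev c = a ∧ od c = b := by
  refine ⟨fun n => if n % 2 = 0 then a (n / 2) else b (n / 2), ?_, ?_⟩
  · funext n
    have h1 : (2 * n) % 2 = 0 := by omega
    have h2 : (2 * n) / 2 = n := by omega
    simp [ev]
  · funext n
    have h1 : (2 * n + 1) % 2 = 1 := by omega
    have h2 : (2 * n + 1) / 2 = n := by omega
    simp [od, h1, h2]

theorem Analytic.inter {α : Type} [MeasurableSpace α] {s t : Set α}
    (hs : Analytic s) (ht : Analytic t) : Analytic (s ∩ t) := by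
  obtain ⟨B, hB, h⟩ := analytic_iff.1 hs
  obtain ⟨C, hC, h'⟩ := analytic_iff.1 ht
  refine analytic_iff.2 ⟨{p | (p.1, ev p.2) ∈ B} ∩ {p | (p.1, od p.2) ∈ C},
    ((measurable_fst.prodMk (measurable_ev.comp measurable_snd)) hB).inter
      ((measurable_fst.prodMk (measurable_od.comp measurable_snd)) hC), fun x => ?_⟩
  simp only [mem_inter_iff, mem_ofPred_eq, h, h']
  constructor
  · rintro ⟨⟨a, ha⟩, ⟨b, hb⟩⟩
    obtain ⟨c, rfl, rfl⟩ := exists_ev_od a b
    exact ⟨c, ha, hb⟩
  · rintro ⟨c, h1, h2⟩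
    exact ⟨⟨_, h1⟩, ⟨_, h2⟩⟩

theorem Analytic.proj {α : Type} [MeasurableSpace α] {s : Set (α × (ℕ → ℕ))}
    (hs : Analytic s) : Analytic {x | ∃ c, (x, c) ∈ s} := by
  obtain ⟨B, hB, h⟩ := analytic_iff.1 hs
  refine analytic_iff.2 ⟨{p | ((p.1, ev p.2), od p.2) ∈ B},
    ((measurable_fst.prodMk (measurable_ev.comp measurable_snd)).prodMk
      (measurable_od.comp measurable_snd)) hB, fun x => ?_⟩
  simp only [mem_ofPred_eq, h]
  constructor
  · rintro ⟨a, b, hab⟩
    obtain ⟨c, rfl, rfl⟩ := exists_ev_od a b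
    exact ⟨c, hab⟩
  · rintro ⟨c, hc⟩
    exact ⟨_, _, hc⟩

/-- projection along a standard Borel space covered by `ℕ^ℕ` -/
theorem Analytic.proj_of_surj {α Z : Type} [MeasurableSpace α] [MeasurableSpace Z]
    {s : Set (α × Z)} (hs : Analytic s) (π : (ℕ → ℕ) → Z) (hπ : Measurable π)
    (hsurj : Function.Surjective π) : Analytic {x | ∃ z, (x, z) ∈ s} := by
  have h1 := (hs.preimage (f := fun p : α × (ℕ → ℕ) => (p.1, π p.2))
    (measurable_fst.prodMk (hπ.comp measurable_snd))).proj
  convert h1 using 1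
  ext x
  simp only [mem_ofPred_eq, mem_preimage]
  constructor
  · rintro ⟨z, hz⟩
    obtain ⟨c, rfl⟩ := hsurj z
    exact ⟨c, hz⟩
  · rintro ⟨c, hc⟩
    exact ⟨_, hc⟩

theorem Analytic.biInter_lt {α : Type} [MeasurableSpace α] {s : ℕ → Set α}
    (hs : ∀ n, Analytic (s n)) (N : ℕ) : Analytic {x | ∀ n < N, x ∈ s n} := by
  induction N with
  | zero => exact Analytic.of_measurableSet (by simp)
  | succ N ih =>
    have : {x | ∀ n < N + 1, x ∈ s n} = {x | ∀ n < N, x ∈ s n} ∩ s N := by
      ext x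
      simp only [mem_ofPred_eq, mem_inter_iff, Nat.lt_succ_iff_lt_or_eq, or_imp, forall_and,
        forall_eq]
    rw [this]
    exact ih.inter (hs N)

/-- ranges of Borel maps are analytic -/
theorem Analytic.range {α Z : Type} [MeasurableSpace α] [StandardBorelSpace α]
    [MeasurableSpace Z] [StandardBorelSpace Z] {f : Z → α} (hf : Measurable f) :
    Analytic (Set.range f) := by
  let := upgradeStandardBorel α
  let := upgradeStandardBorel Z
  have h1 : AnalyticSet (Set.range f) := MeasurableSet.univ.analyticSet_image hf |> fun h => by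
    rwa [image_univ] at h
  rw [AnalyticSet] at h1
  rcases h1 with h1 | ⟨g, hg, hr⟩
  · rw [h1]
    exact Analytic.of_measurableSet MeasurableSet.empty
  · rw [← hr]
    refine analytic_iff.2 ⟨{p | g p.2 = p.1}, ?_, fun x => ?_⟩
    · exact measurableSet_eq_fun (hg.measurable.comp measurable_snd) measurable_fst
    · simp

/-- `W` is universal for nonempty analytic subsets of `β` -/
theorem exists_universal (β : Type) [MeasurableSpace β] [StandardBorelSpace β] :
    ∃ W : Set ((ℕ → Bool) × β), Analytic W ∧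
      ∀ s : Set β, Analytic s → s.Nonempty → ∃ z, ∀ x, x ∈ s ↔ (z, x) ∈ W := by
  classical
  let := upgradeStandardBorel β
  obtain ⟨b, hbc, hbe, hb⟩ := TopologicalSpace.exists_countable_basis (β × (ℕ → ℕ))
  obtain ⟨B, hB⟩ : ∃ B : ℕ → Set (β × (ℕ → ℕ)), b ∪ {∅} = Set.range B :=
    (hbc.union (countable_singleton ∅)).exists_eq_range (by simp)
  have hBo : ∀ n, IsOpen (B n) := by
    intro n
    have h1 : B n ∈ b ∪ {∅} := by rw [hB]; exact mem_range_self n
    rcases h1 with h1 | h1
    · exact hb.isOpen h1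
    · rw [mem_singleton_iff.1 h1]; exact isOpen_empty
  refine ⟨{p | ∃ c, (p, c) ∈ {q : ((ℕ → Bool) × β) × (ℕ → ℕ) | ∀ n, q.1.1 n = true →
    (q.1.2, q.2) ∉ B n}}, ?_, ?_⟩
  · refine Analytic.proj (Analytic.of_measurableSet ?_)
    have h1 : {q : ((ℕ → Bool) × β) × (ℕ → ℕ) | ∀ n, q.1.1 n = true →
        (q.1.2, q.2) ∉ B n} = ⋂ n, ({q | q.1.1 n = true}ᶜ ∪
          {q : ((ℕ → Bool) × β) × (ℕ → ℕ) | (q.1.2, q.2) ∈ B n}ᶜ) := by
      ext q
      simp only [mem_ofPred_eq, mem_iInter, mem_union, mem_compl_iff, imp_iff_not_or]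
    rw [h1]
    refine MeasurableSet.iInter fun n => MeasurableSet.union ?_ ?_
    · have hm : Measurable fun q : ((ℕ → Bool) × β) × (ℕ → ℕ) => q.1.1 n :=
        (measurable_pi_apply n).comp (measurable_fst.comp measurable_fst)
      exact (hm (measurableSet_singleton true)).compl
    · exact (((measurable_snd.comp measurable_fst).prodMk measurable_snd)
        (hBo n).measurableSet).compl
  · intro s hs hne
    obtain ⟨C, hC, rfl⟩ := hs
    have h1 : AnalyticSet (Prod.fst '' C) := hC.analyticSet_image measurable_fst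
    rw [AnalyticSet] at h1
    rcases h1 with h1 | ⟨g, hg, hr⟩
    · rw [h1] at hne
      exact absurd hne Set.not_nonempty_empty
    · have hcl : IsClosed {p : β × (ℕ → ℕ) | g p.2 = p.1} :=
        isClosed_eq (hg.comp continuous_snd) continuous_fst
      refine ⟨fun n => decide (Disjoint (B n) {p : β × (ℕ → ℕ) | g p.2 = p.1}), fun x => ?_⟩
      rw [← hr]
      constructor
      · rintro ⟨c, rfl⟩
        refine ⟨c, fun n hn hmem => ?_⟩
        have hn' : Disjoint (B n) {p : β × (ℕ → ℕ) | g p.2 = p.1} := by simpa using hn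
        exact Set.disjoint_left.1 hn' hmem rfl
      · rintro ⟨c, hc⟩
        refine ⟨c, ?_⟩
        by_contra hne'
        have hmem : (x, c) ∈ {p : β × (ℕ → ℕ) | g p.2 = p.1}ᶜ := hne'
        obtain ⟨V, hV, hxV, hsub⟩ := hb.exists_subset_of_mem_open hmem hcl.isOpen_compl
        obtain ⟨n, rfl⟩ : V ∈ Set.range B := by rw [← hB]; exact Or.inl hV
        refine hc n ?_ hxV
        simp only [decide_eq_true_eq]
        exact Set.disjoint_left.2 fun p hp hp' => hsub hp hp'

end Pool.Agent.Q203.An
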