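import Pool.Agent.Q127.DJ.Stm

/-! # DJ-ONE: one sign of the lag -/

set_option autoImplicit false

namespace Pool.Agent.Q203.DJ_ONE

open Pool.Agent.Q127.DJ MeasureTheory Filter Topology

theorem bm_I {m : ℕ} (f : ℕ → Fin m) (a : Fin m) (s : ℕ) : BM 1 (I f a s) := by
  constructor
  · unfold I
    refine Measurable.ite ?_ measurable_const measurable_const
    have : Measurable fun x : ℕ → ℕ => f (x s) :=
      (measurable_of_countable f).comp (measurable_pi_apply s)
    exact this (measurableSet_singleton a)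
  · intro x
    unfold I
    split_ifs <;> simp

theorem dep_I {m : ℕ} (f : ℕ → Fin m) (a : Fin m) {s t : ℕ} (hst : s < t) : Dep f t (I f a s) := by
  intro x y hxy
  have h := congrFun hxy ⟨s, hst⟩
  simp only [nm] at h
  unfold I
  rw [h]

theorem iter_S (s : ℕ) (x : ℕ → ℕ) (n : ℕ) : (S^[s] x) n = x (n + s) := by
  induction s generalizing x with
  | zero => rfl
  | succ s ih =>
    rw [Function.iterate_succ_apply, ih]
    simp only [S]
    congr 1

theorem int_I (μ : Measure (ℕ → ℕ)) [IsProbabilityMeasure μ] (hμ : MeasurePreserving S μ μ) {m : ℕ}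
    (f : ℕ → Fin m) (a : Fin m) (s : ℕ) : ∫ x, I f a s x ∂μ = μ.real {x | f (x 0) = a} := by
  have hm : MeasurableSet {x : ℕ → ℕ | f (x 0) = a} := by
    have : Measurable fun x : ℕ → ℕ => f (x 0) :=
      (measurable_of_countable f).comp (measurable_pi_apply 0)
    exact this (measurableSet_singleton a)
  have hs : MeasurableSet {x : ℕ → ℕ | f (x s) = a} := by
    have : Measurable fun x : ℕ → ℕ => f (x s) :=
      (measurable_of_countable f).comp (measurable_pi_apply s)
    exact this (measurableSet_singleton a)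
  have h1 : I f a s = Set.indicator {x : ℕ → ℕ | f (x s) = a} 1 := by
    funext x
    simp only [I, Set.indicator, Set.mem_ofPred_eq, Pi.one_apply]
  rw [h1, integral_indicator_one hs]
  have h2 : {x : ℕ → ℕ | f (x s) = a} = S^[s] ⁻¹' {x | f (x 0) = a} := by
    ext x
    simp only [Set.mem_ofPred_eq, Set.mem_preimage, iter_S, Nat.zero_add]
  have h3 := (hμ.iterate s).measureReal_preimage hm.nullMeasurableSet
  rw [h2, h3]

theorem abs_A (h1 : S_inn) (μ : Measure (ℕ → ℕ)) [IsProbabilityMeasure μ] {m : ℕ}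
    (f : ℕ → Fin m) (a : Fin m) (t k : ℕ) : |A μ f a t k| ≤ 1 := by
  have hg := (h1 μ m f a t).2.1.2
  have h := norm_integral_le_of_norm_le_const (μ := μ) (C := 1)
    (f := fun x => g μ f a t x * I f a (t + k) x) (Eventually.of_forall fun x => by
      rw [Real.norm_eq_abs, abs_mul]
      have h2 := (bm_I f a (t + k)).2 x
      have h3 := hg x
      nlinarith [abs_nonneg (g μ f a t x), abs_nonneg (I f a (t + k) x)])
  rw [Real.norm_eq_abs] at h
  simpa [A] using h

theorem int_gI (h1 : S_inn) (μ : Measure (ℕ → ℕ)) [IsProbabilityMeasure μ] {m : ℕ}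
    (f : ℕ → Fin m) (a : Fin m) {t s : ℕ} (hst : s < t) :
    ∫ x, g μ f a t x * I f a s x ∂μ = 0 := by
  have h := (h1 μ m f a t).2.2.1 1 (I f a s) (bm_I f a s) (dep_I f a hst)
  rw [← h]
  exact integral_congr_ae (Eventually.of_forall fun x => mul_comm _ _)

theorem sum_eq (h1 : S_inn) (μ ν : Measure (ℕ → ℕ)) [IsProbabilityMeasure μ] [IsProbabilityMeasure ν]
    {m k : ℕ} (f : ℕ → Fin m) (h : ℕ → Fin k) (a : Fin m) (b : Fin k) (j T U s : ℕ) (hU : s + 1 ≤ U)
    (hT : T ≤ s) :
    ∑ t ∈ Finset.Ico T U, (∫ x, g μ f a t x * I f a s x ∂μ) * (∫ y, g ν h b t y * I h b (s + j) y ∂ν) =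
      ∑ t ∈ Finset.Ico T (s + 1), A μ f a t (s - t) * A ν h b t (s - t + j) := by
  rw [← Finset.sum_Ico_consecutive _ (show T ≤ s + 1 by omega) hU]
  have h0 : ∑ t ∈ Finset.Ico (s + 1) U,
      (∫ x, g μ f a t x * I f a s x ∂μ) * (∫ y, g ν h b t y * I h b (s + j) y ∂ν) = 0 := by
    refine Finset.sum_eq_zero fun t ht => ?_
    rw [Finset.mem_Ico] at ht
    rw [int_gI h1 μ f a (show s < t by omega), zero_mul]
  rw [h0, add_zero]
  refine Finset.sum_congr rfl fun t ht => ?_
  rw [Finset.mem_Ico] at ht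
  unfold A
  rw [show t + (s - t) = s by omega, show t + (s - t + j) = s + j by omega]

theorem one (h1 : S_inn) (h2 : S_expa) (h3 : S_sqs) (h4 : S_avg) (h5 : S_joi) (h6 : S_qme) : S_one := by
  intro μ ν _ _ hμ hν m k f h a b α β j hα hβ hτ
  set τ : ℝ := ∑' i, α i * β (i + j) with hτd
  set c0 : ℝ := μ.real {x | f (x 0) = a} * ν.real {y | h (y 0) = b} with hc0
  have hτ0 : 0 < |τ| := abs_pos.2 hτ
  set ε : ℝ := min 1 (|τ| / 2) with hε
  have hε0 : 0 < ε := lt_min one_pos (by linarith)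
  have hε1 : ε ≤ 1 := min_le_left _ _
  have hε2 : ε ≤ |τ| / 2 := min_le_right _ _
  obtain ⟨T, hT⟩ := h4 (A μ f a) (A ν h b) α β j (abs_A h1 μ f a) (abs_A h1 ν h b) hα hβ
    (h3 μ m f a α hα) (h3 ν k h b β hβ)
  choose Q hQ1 hQ2 hQ3 using fun N : ℕ => h6 μ ν m k f h a b ε (T N) (T N + N + j + 1) hε0.le hε1
  set W : ℕ → ℝ := fun N => ∑ i ∈ Finset.range N, ∑ t ∈ Finset.Ico (T N) (T N + i + 1),
    A μ f a t (T N + i - t) * A ν h b t (T N + i - t + j) with hW
  have hL : Tendsto (fun N : ℕ => c0 + ε * (W N / (N : ℝ))) atTop (𝓝 (c0 + ε * τ)) :=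
    tendsto_const_nhds.add (hT.const_mul ε)
  obtain ⟨ξ, hξ1, hξ2, hξ3, hξ4, hξ5⟩ := h5 μ ν hμ hν m k f h a b j Q T (c0 + ε * τ) (ε ^ 2)
    (fun N => c0 + ε * (W N / (N : ℝ))) (fun N => ⟨hQ1 N, hQ2 N⟩) hL (by
      intro N hN
      have hN' : (0 : ℝ) < N := by exact_mod_cast hN
      have key : ∀ i ∈ Finset.range N,
          |(Q N).real {p | f (p.1 (T N + i)) = a ∧ h (p.2 (T N + i + j)) = b} -
            (c0 + ε * ∑ t ∈ Finset.Ico (T N) (T N + i + 1),
              A μ f a t (T N + i - t) * A ν h b t (T N + i - t + j))| ≤ ε ^ 2 := by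
        intro i hi
        rw [Finset.mem_range] at hi
        have e := h2 μ ν m k f h a b ε (T N) (T N + N + j + 1) (I f a (T N + i)) (I h b (T N + i + j))
          hε0.le hε1 (bm_I _ _ _) (bm_I _ _ _)
        rw [← hQ3 N (T N + i) (T N + i + j), int_I μ hμ, int_I ν hν,
          sum_eq h1 μ ν f h a b j (T N) (T N + N + j + 1) (T N + i) (by omega) (by omega)] at e
        rw [← sub_sub]
        exact e
      have e2 : (∑ i ∈ Finset.range N,
            (Q N).real {p | f (p.1 (T N + i)) = a ∧ h (p.2 (T N + i + j)) = b}) / (N : ℝ) -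
          (c0 + ε * (W N / (N : ℝ))) =
          (∑ i ∈ Finset.range N, ((Q N).real {p | f (p.1 (T N + i)) = a ∧ h (p.2 (T N + i + j)) = b} -
            (c0 + ε * ∑ t ∈ Finset.Ico (T N) (T N + i + 1),
              A μ f a t (T N + i - t) * A ν h b t (T N + i - t + j)))) / (N : ℝ) := by
        have e3 : ∑ i ∈ Finset.range N, (c0 + ε * ∑ t ∈ Finset.Ico (T N) (T N + i + 1),
            A μ f a t (T N + i - t) * A ν h b t (T N + i - t + j)) = N * c0 + ε * W N := by
          rw [Finset.sum_add_distrib, Finset.sum_const, Finset.card_range, nsmul_eq_mul, ← Finset.mul_sum]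
        rw [Finset.sum_sub_distrib, e3, sub_div, add_div, mul_div_cancel_left₀ _ hN'.ne', mul_div_assoc]
      rw [e2, abs_div, abs_of_pos hN', div_le_iff₀ hN']
      refine (Finset.abs_sum_le_sum_abs _ _).trans ((Finset.sum_le_sum key).trans ?_)
      rw [Finset.sum_const, Finset.card_range, nsmul_eq_mul]
      linarith)
  refine ⟨ξ, hξ1, hξ2, hξ3, hξ4, fun hne => ?_⟩
  rw [hne] at hξ5
  have h7 : |ε * τ| ≤ ε ^ 2 := by
    have h8 : c0 - (c0 + ε * τ) = -(ε * τ) := by ring
    rw [h8, abs_neg] at hξ5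
    exact hξ5
  rw [abs_mul, abs_of_pos hε0] at h7
  nlinarith

end Pool.Agent.Q203.DJ_ONE
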