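import Mathlib
import Pool.Agent.Helper59.AC1

set_option autoImplicit false

open Set Topology Filter TopologicalSpace

namespace Pool.Agent.Q203.Jump

/-- The `G`-jump of a relation `E` on `X`: the relation on `G → X` relating `α` and `β` iff
some `g` satisfies `E (α (g⁻¹ * h)) (β h)` for all `h`. -/
def GJump (G : Type*) [Group G] {X : Type*} (E : X → X → Prop) (α β : G → X) : Prop :=
  ∃ g : G, ∀ h : G, E (α (g⁻¹ * h)) (β h)

/-- Borel reducibility -/
def BorelReducible {X Y : Type*} [MeasurableSpace X] [MeasurableSpace Y]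
    (E : X → X → Prop) (F : Y → Y → Prop) : Prop :=
  ∃ f : X → Y, Measurable f ∧ ∀ x x', E x x' ↔ F (f x) (f x')

/-- Kuratowski-Ulam, residual form -/
theorem ku_res' {X Y : Type*} [TopologicalSpace X] [TopologicalSpace Y]
    [SecondCountableTopology Y] {P : X × Y → Prop} (h : ∀ᶠ p in residual (X × Y), P p) :
    ∀ᶠ x in residual X, ∀ᶠ y in residual Y, P (x, y) := by
  have h1 : IsMeagre {p : X × Y | ¬ P p} := by
    rw [IsMeagre]
    refine Filter.mem_of_superset h ?_
    intro p hp hp'
    exact hp' hp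
  have h2 := Pool.Agent.Helper59.AC.ku _ h1
  rw [IsMeagre] at h2
  refine Filter.mem_of_superset h2 ?_
  intro x hx
  rw [Set.mem_compl_iff, Set.mem_ofPred_eq, not_not] at hx
  rw [Set.mem_ofPred_eq]
  rw [IsMeagre] at hx
  refine Filter.mem_of_superset hx ?_
  intro g hg
  by_contra h3
  exact hg h3

/-- Kuratowski-Ulam, residual form, swapped -/
theorem ku_res {X Y : Type*} [TopologicalSpace X] [TopologicalSpace Y]
    [SecondCountableTopology X] {P : X × Y → Prop} (h : ∀ᶠ p in residual (X × Y), P p) :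
    ∀ᶠ y in residual Y, ∀ᶠ x in residual X, P (x, y) := by
  have h1 : IsMeagre {p : X × Y | ¬ P p} := by
    rw [IsMeagre]
    refine Filter.mem_of_superset h ?_
    intro p hp hp'
    exact hp' hp
  have h2 := Pool.Agent.Helper59.AC.ku' _ h1
  rw [IsMeagre] at h2
  refine Filter.mem_of_superset h2 ?_
  intro x hx
  rw [Set.mem_compl_iff, Set.mem_ofPred_eq, not_not] at hx
  rw [Set.mem_ofPred_eq]
  rw [IsMeagre] at hx
  refine Filter.mem_of_superset hx ?_
  intro g hg
  by_contra h3
  exact hg h3

section core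

variable {G H : Type*} [Group G]

/-- coordinatewise action of `G^H` on `(2^G)^H` -/
def act (γ : H → G) (x : H → G → Bool) : H → G → Bool := fun h a => x h ((γ h)⁻¹ * a)

theorem act_inv_act (γ : H → G) (x : H → G → Bool) : act (fun h => (γ h)⁻¹) (act γ x) = x := by
  funext h a
  simp [act]

theorem act_act_inv (γ : H → G) (x : H → G → Bool) : act γ (act (fun h => (γ h)⁻¹) x) = x := by
  funext h a
  simp [act]

theorem continuous_act [TopologicalSpace G] [DiscreteTopology G] :
    Continuous fun p : (H → G) × (H → G → Bool) => act p.1 p.2 := by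
  refine continuous_pi fun h => continuous_pi fun a => ?_
  have h1 : Continuous fun q : G × (G → Bool) => q.2 (q.1⁻¹ * a) := by
    refine continuous_prod_of_discrete_left.2 fun g => ?_
    exact continuous_apply (g⁻¹ * a)
  have h2 : Continuous fun p : (H → G) × (H → G → Bool) => (p.1 h, p.2 h) :=
    ((continuous_apply h).comp continuous_fst).prodMk ((continuous_apply h).comp continuous_snd)
  exact h1.comp h2

theorem continuous_act_left [TopologicalSpace G] [DiscreteTopology G] (x : H → G → Bool) :
    Continuous fun γ : H → G => act γ x :=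
  continuous_act.comp (continuous_id.prodMk continuous_const)

theorem continuous_act_right (γ : H → G) : Continuous fun x => act γ x := by
  refine continuous_pi fun h => continuous_pi fun a => ?_
  exact (continuous_apply ((γ h)⁻¹ * a)).comp (continuous_apply h)

theorem isOpenMap_act [TopologicalSpace G] [DiscreteTopology G] :
    IsOpenMap fun p : (H → G) × (H → G → Bool) => act p.1 p.2 := by
  refine IsOpenMap.of_sections ?_
  rintro ⟨γ, x⟩
  refine ⟨fun y => (γ, act (fun h => (γ h)⁻¹) y), ?_, ?_, ?_⟩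
  · exact (continuous_const.prodMk (continuous_act_right _)).continuousAt
  · simp only [act_inv_act]
  · intro y
    simp only [act_act_inv]

open Classical in
/-- replace the coordinates outside `S` by those of `z`, and act on those in `S` -/
noncomputable def gl (S : Set H) (s : H → G) (x z : H → G → Bool) : H → G → Bool :=
  fun h => if h ∈ S then (fun a => x h ((s h)⁻¹ * a)) else z h

theorem gl_mem (S : Set H) (s : H → G) (x z : H → G → Bool) {h : H} (hh : h ∈ S) :
    gl S s x z h = fun a => x h ((s h)⁻¹ * a) := by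
  simp [gl, hh]

theorem gl_notMem (S : Set H) (s : H → G) (x z : H → G → Bool) {h : H} (hh : h ∉ S) :
    gl S s x z h = z h := by
  simp [gl, hh]

theorem continuous_gl (S : Set H) (s : H → G) :
    Continuous fun p : (H → G → Bool) × (H → G → Bool) => gl S s p.1 p.2 := by
  refine continuous_pi fun h => ?_
  by_cases hh : h ∈ S
  · simp only [gl_mem S s _ _ hh]
    refine continuous_pi fun a => ?_
    exact (continuous_apply _).comp ((continuous_apply h).comp continuous_fst)
  · simp only [gl_notMem S s _ _ hh]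
    exact (continuous_apply h).comp continuous_snd

open Classical in
theorem isOpenMap_gl (S : Set H) (s : H → G) :
    IsOpenMap fun p : (H → G → Bool) × (H → G → Bool) => gl S s p.1 p.2 := by
  refine IsOpenMap.of_sections ?_
  rintro ⟨x, z⟩
  refine ⟨fun y => (fun h => if h ∈ S then (fun a => y h (s h * a)) else x h,
    fun h => if h ∈ S then z h else y h), ?_, ?_, ?_⟩
  · refine Continuous.continuousAt ?_
    refine Continuous.prodMk ?_ ?_
    · refine continuous_pi fun h => ?_
      by_cases hh : h ∈ S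
      · simp only [hh, if_true]
        refine continuous_pi fun a => ?_
        exact (continuous_apply _).comp (continuous_apply h)
      · simp only [hh, if_false]
        exact continuous_const
    · refine continuous_pi fun h => ?_
      by_cases hh : h ∈ S
      · simp only [hh, if_true]
        exact continuous_const
      · simp only [hh, if_false]
        exact continuous_apply h
  · refine Prod.ext ?_ ?_
    · funext h
      by_cases hh : h ∈ S
      · simp [hh, gl]
      · simp [hh]
    · funext h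
      by_cases hh : h ∈ S
      · simp [hh]
      · simp [hh, gl]
  · intro y
    funext h
    by_cases hh : h ∈ S
    · simp [gl, hh]
    · simp [gl, hh]

/-- generic points of `2^G` have dense orbits -/
theorem generic_orbit_dense [Countable G] [Infinite G] :
    ∀ᶠ p in residual (G → Bool), ∀ O : Set (G → Bool), IsOpen O → O.Nonempty →
      ∃ g : G, (fun a => p (g⁻¹ * a)) ∈ O := by
  classical
  have key : ∀ B ∈ countableBasis (G → Bool), ∀ᶠ p in residual (G → Bool), B.Nonempty →
      ∃ g : G, (fun a => p (g⁻¹ * a)) ∈ B := by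
    intro B hB
    by_cases hne : B.Nonempty
    swap
    · exact Filter.Eventually.of_forall fun p hp => absurd hp hne
    have hBo : IsOpen B := isOpen_of_mem_countableBasis hB
    have hopen : IsOpen {p : G → Bool | ∃ g : G, (fun a => p (g⁻¹ * a)) ∈ B} := by
      have : {p : G → Bool | ∃ g : G, (fun a => p (g⁻¹ * a)) ∈ B} =
          ⋃ g : G, (fun (p : G → Bool) a => p (g⁻¹ * a)) ⁻¹' B := by
        ext p
        simp
      rw [this]
      refine isOpen_iUnion fun g => hBo.preimage ?_
      exact continuous_pi fun a => continuous_apply _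
    have hdense : Dense {p : G → Bool | ∃ g : G, (fun a => p (g⁻¹ * a)) ∈ B} := by
      rw [dense_iff_inter_open]
      intro W hW hWne
      obtain ⟨p0, hp0⟩ := hWne
      obtain ⟨q0, hq0⟩ := hne
      obtain ⟨A, u, hu, hAW⟩ := isOpen_pi_iff.1 hW p0 hp0
      obtain ⟨C, v, hv, hCB⟩ := isOpen_pi_iff.1 hBo q0 hq0
      -- choose g with g⁻¹ C ∩ A = ∅
      obtain ⟨g, hg⟩ : ∃ g : G, g ∉ Finset.image₂ (fun c a => c * a⁻¹) C A :=
        Infinite.exists_notMem_finset _
      have hg' : ∀ c ∈ C, g⁻¹ * c ∉ A := by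
        intro c hc hcon
        apply hg
        rw [Finset.mem_image₂]
        exact ⟨c, hc, _, hcon, by group⟩
      refine ⟨fun a => if a ∈ A then p0 a else q0 (g * a), ?_, g, ?_⟩
      · apply hAW
        intro a ha
        have ha' : a ∈ A := ha
        simp only [ha', if_true]
        exact (hu a ha').2
      · apply hCB
        intro c hc
        have hc' : c ∈ C := hc
        simp only [hg' c hc', if_false, mul_inv_cancel_left]
        exact (hv c hc').2
    filter_upwards [residual_of_dense_open hopen hdense] with p hp _ using hp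
  have h2 : ∀ᶠ p in residual (G → Bool), ∀ B ∈ countableBasis (G → Bool), B.Nonempty →
      ∃ g : G, (fun a => p (g⁻¹ * a)) ∈ B := by
    have := (eventually_countable_ball (countable_countableBasis (G → Bool))).2 key
    exact this
  filter_upwards [h2] with p hp O hO hOne
  obtain ⟨q, hq⟩ := hOne
  obtain ⟨B, hB, hqB, hBO⟩ := (isBasis_countableBasis (G → Bool)).exists_subset_of_mem_open hq hO
  obtain ⟨g, hg⟩ := hp B hB ⟨q, hqB⟩
  exact ⟨g, hBO hg⟩

theorem generic_all [Countable G] [Infinite G] [Countable H] :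
    ∀ᶠ x in residual (H → G → Bool), ∀ h : H, ∀ O : Set (G → Bool), IsOpen O → O.Nonempty →
      ∃ g : G, (fun a => x h (g⁻¹ * a)) ∈ O := by
  rw [eventually_countable_forall]
  intro h
  exact (tendsto_residual_of_isOpenMap (f := fun x : H → G → Bool => x h) (continuous_apply h)
    (isOpenMap_eval h)).eventually (generic_orbit_dense (G := G))

omit [Group G] in
/-- countable sets are meagre in `2^G` -/
theorem countable_meagre [Infinite G] {C : Set (G → Bool)} (hC : C.Countable) :
    ∀ᶠ p in residual (G → Bool), p ∉ C := by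
  classical
  have h1 : ∀ q ∈ C, ∀ᶠ p in residual (G → Bool), p ≠ q := by
    intro q _
    refine residual_of_dense_open isOpen_ne ?_
    rw [dense_iff_inter_open]
    intro W hW hWne
    obtain ⟨p0, hp0⟩ := hWne
    obtain ⟨A, u, hu, hAW⟩ := isOpen_pi_iff.1 hW p0 hp0
    obtain ⟨g, hg⟩ := Infinite.exists_notMem_finset A
    refine ⟨Function.update p0 g (!(q g)), ?_, ?_⟩
    · apply hAW
      intro a ha
      have ha' : a ∈ A := ha
      have hne : a ≠ g := fun h => hg (h ▸ ha')
      rw [Function.update_of_ne hne]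
      exact (hu a ha').2
    · intro hcon
      have := congrFun hcon g
      simp at this
  have := (eventually_countable_ball hC).2 h1
  filter_upwards [this] with p hp hpC
  exact hp p hpC rfl

variable [Group H]

theorem core [Countable G] [Infinite G] [Countable H] [Infinite H] {Y : Type*}
    [TopologicalSpace Y] [SecondCountableTopology Y] [T2Space Y] [MeasurableSpace Y]
    [BorelSpace Y] (f : (H → G → Bool) → Y) (hf : Measurable f) (φ : ℕ → Y → Y)
    (hφ : ∀ n, Measurable (φ n))
    (h1 : ∀ x y, GJump H (GJump G (fun a b : Bool => a = b)) x y → ∃ n, φ n (f x) = f y)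
    (h2 : ∀ x y, f x = f y → GJump H (GJump G (fun a b : Bool => a = b)) x y) : False := by
  classical
  let _ : TopologicalSpace G := ⊥
  have _ : DiscreteTopology G := ⟨rfl⟩
  let _ : MeasurableSpace G := ⊤
  have _ : BorelSpace G := ⟨borel_eq_top_of_discrete.symm⟩
  -- the sets A n
  let A : ℕ → Set ((H → G) × (H → G → Bool)) := fun n => {p | φ n (f p.2) = f (act p.1 p.2)}
  have hA : ∀ n, MeasurableSet (A n) := by
    intro n
    exact measurableSet_eq_fun ((hφ n).comp (hf.comp measurable_snd))
      (hf.comp continuous_act.measurable)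
  have hAu : ∀ p, ∃ n, p ∈ A n := by
    rintro ⟨γ, x⟩
    obtain ⟨n, hn⟩ := h1 x (act γ x) ⟨1, fun h => ⟨γ h, fun a => by simp [act]⟩⟩
    exact ⟨n, hn⟩
  -- open sets
  choose O hO hAO using fun n => (hA n).residualEq_isOpen
  obtain ⟨n, hne⟩ : ∃ n, (O n).Nonempty := by
    by_contra hcon
    push Not at hcon
    have h3 : ∀ n, ∀ᶠ p in residual ((H → G) × (H → G → Bool)), p ∉ A n := by
      intro n
      filter_upwards [hAO n] with p hp hpA
      have : p ∈ O n := by
        have := hp.mp hpA
        exact this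
      rw [hcon n] at this
      exact this
    have h4 := eventually_countable_forall.2 h3
    obtain ⟨p, hp⟩ := (dense_of_mem_residual h4).nonempty
    obtain ⟨m, hm⟩ := hAu p
    exact hp m hm
  obtain ⟨⟨γ0, x0⟩, hp0⟩ := hne
  obtain ⟨V, U, hV, hU, hγ0, hx0, hVU⟩ := isOpen_prod_iff.1 (hO n) γ0 x0 hp0
  obtain ⟨S, u, hu, hSV⟩ := isOpen_pi_iff.1 hV γ0 hγ0
  have hSV' : ∀ γ : H → G, (∀ h ∈ S, γ h = γ0 h) → γ ∈ V := by
    intro γ hγ
    apply hSV
    intro h hh
    rw [hγ h hh]
    exact (hu h hh).2
  -- continuity of f on a comeagre set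
  have hB : ∀ B ∈ countableBasis Y, ∃ W : Set (H → G → Bool), IsOpen W ∧
      ∀ᶠ x in residual (H → G → Bool), f x ∈ B ↔ x ∈ W := by
    intro B hB
    obtain ⟨W, hW, hW2⟩ := (hf (isOpen_of_mem_countableBasis hB).measurableSet).residualEq_isOpen
    refine ⟨W, hW, ?_⟩
    filter_upwards [hW2] with x hx
    exact iff_of_eq hx
  choose W hW hW2 using hB
  have hC : ∀ᶠ x in residual (H → G → Bool), ∀ B (hB : B ∈ countableBasis Y),
      f x ∈ B ↔ x ∈ W B hB :=
    (eventually_countable_ball (countable_countableBasis Y)).2 hW2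
  -- generic conditions
  have hku1 : ∀ᶠ p in residual ((H → G) × (H → G → Bool)), (p.1 ∈ V ∧ p.2 ∈ U) →
      φ n (f p.2) = f (act p.1 p.2) := by
    filter_upwards [hAO n] with p hp hVUp
    have : p ∈ A n := hp.mpr (hVU ⟨hVUp.1, hVUp.2⟩)
    exact this
  have hku2 : ∀ᶠ p in residual ((H → G) × (H → G → Bool)),
      ∀ B (hB : B ∈ countableBasis Y), f (act p.1 p.2) ∈ B ↔ act p.1 p.2 ∈ W B hB :=
    (tendsto_residual_of_isOpenMap continuous_act isOpenMap_act).eventually hC
  have hku3 : ∀ᶠ p in residual ((H → G → Bool) × (H → G → Bool)),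
      ∀ B (hB : B ∈ countableBasis Y),
        f (gl (S : Set H) γ0 p.1 p.2) ∈ B ↔ gl (S : Set H) γ0 p.1 p.2 ∈ W B hB :=
    (tendsto_residual_of_isOpenMap (continuous_gl _ _) (isOpenMap_gl _ _)).eventually hC
  -- a good point
  have hg1 : ∀ᶠ x in residual (H → G → Bool), ∀ᶠ γ in residual (H → G),
      (γ ∈ V ∧ x ∈ U) → φ n (f x) = f (act γ x) := by
    exact ku_res (P := fun p : (H → G) × (H → G → Bool) => (p.1 ∈ V ∧ p.2 ∈ U) →
      φ n (f p.2) = f (act p.1 p.2)) hku1
  have hg2 : ∀ᶠ x in residual (H → G → Bool), ∀ᶠ γ in residual (H → G),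
      ∀ B (hB : B ∈ countableBasis Y), f (act γ x) ∈ B ↔ act γ x ∈ W B hB := by
    exact ku_res (P := fun p : (H → G) × (H → G → Bool) =>
      ∀ B (hB : B ∈ countableBasis Y), f (act p.1 p.2) ∈ B ↔ act p.1 p.2 ∈ W B hB) hku2
  have hg3 : ∀ᶠ x in residual (H → G → Bool), ∀ᶠ z in residual (H → G → Bool),
      ∀ B (hB : B ∈ countableBasis Y),
        f (gl (S : Set H) γ0 x z) ∈ B ↔ gl (S : Set H) γ0 x z ∈ W B hB := by
    exact ku_res' (P := fun p : (H → G → Bool) × (H → G → Bool) =>
      ∀ B (hB : B ∈ countableBasis Y),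
        f (gl (S : Set H) γ0 p.1 p.2) ∈ B ↔ gl (S : Set H) γ0 p.1 p.2 ∈ W B hB) hku3
  obtain ⟨x, ⟨⟨⟨hx1, hx2⟩, hx3⟩, hx4⟩, hxU⟩ :=
    (dense_of_mem_residual (((hg1.and hg2).and hg3).and generic_all)).exists_mem_open hU ⟨x0, hx0⟩
  -- the claim
  have claim : ∀ z, (∀ B (hB : B ∈ countableBasis Y),
      f (gl (S : Set H) γ0 x z) ∈ B ↔ gl (S : Set H) γ0 x z ∈ W B hB) →
      f (gl (S : Set H) γ0 x z) = φ n (f x) := by
    intro z hz
    by_contra hne
    obtain ⟨P, Q, hPo, hQo, hP, hQ, hPQ⟩ := t2_separation hne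
    obtain ⟨B, hB, hfB, hBP⟩ :=
      (isBasis_countableBasis Y).exists_subset_of_mem_open hP hPo
    have hyW : gl (S : Set H) γ0 x z ∈ W B hB := (hz B hB).1 hfB
    obtain ⟨T, v, hv, hTW⟩ := isOpen_pi_iff.1 (hW B hB) _ hyW
    -- the open set of group elements
    have hVo : IsOpen {γ : H → G | γ ∈ V ∧ act γ x ∈ W B hB} :=
      hV.inter ((hW B hB).preimage (continuous_act_left x))
    have hVne : {γ : H → G | γ ∈ V ∧ act γ x ∈ W B hB}.Nonempty := by
      have hch : ∀ h : H, ∃ g : G, (h ∈ S → g = γ0 h) ∧ (h ∈ T → (fun a => x h (g⁻¹ * a)) ∈ v h) := by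
        intro h
        by_cases hS : h ∈ S
        · refine ⟨γ0 h, fun _ => rfl, fun hT => ?_⟩
          have := (hv h hT).2
          rwa [gl_mem _ _ _ _ (by exact_mod_cast hS)] at this
        · by_cases hT : h ∈ T
          · obtain ⟨g, hg⟩ := hx4 h (v h) (hv h hT).1 ⟨_, (hv h hT).2⟩
            exact ⟨g, fun h' => absurd h' hS, fun _ => hg⟩
          · exact ⟨1, fun h' => absurd h' hS, fun h' => absurd h' hT⟩
      choose γ hγ1 hγ2 using hch
      exact ⟨γ, hSV' γ hγ1, hTW fun h hh => hγ2 h hh⟩
    obtain ⟨γ, ⟨hγ1, hγ2⟩, hγV⟩ :=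
      (dense_of_mem_residual (hx1.and hx2)).exists_mem_open hVo hVne
    have h3 := hγ1 ⟨hγV.1, hxU⟩
    have h4 : f (act γ x) ∈ B := (hγ2 B hB).2 hγV.2
    rw [← h3] at h4
    exact Set.disjoint_left.1 hPQ (hBP h4) hQ
  have hconst : ∀ᶠ z in residual (H → G → Bool), f (gl (S : Set H) γ0 x z) = φ n (f x) := by
    filter_upwards [hx3] with z hz using claim z hz
  obtain ⟨z1, hz1⟩ := (dense_of_mem_residual hconst).nonempty
  obtain ⟨h0, hh0⟩ := Infinite.exists_notMem_finset S
  let Cc : Set (G → Bool) := Set.range fun q : H × G =>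
    fun a => gl (S : Set H) γ0 x z1 (q.1⁻¹ * h0) (q.2⁻¹ * a)
  have hCc : Cc.Countable := Set.countable_range _
  have hz2' : ∀ᶠ z in residual (H → G → Bool), z h0 ∉ Cc :=
    (tendsto_residual_of_isOpenMap (f := fun z : H → G → Bool => z h0) (continuous_apply h0)
      (isOpenMap_eval h0)).eventually (countable_meagre hCc)
  obtain ⟨z2, hz2, hz3⟩ := (dense_of_mem_residual (hconst.and hz2')).nonempty
  obtain ⟨t, ht⟩ := h2 (gl (S : Set H) γ0 x z1) (gl (S : Set H) γ0 x z2) (hz1.trans hz2.symm)
  obtain ⟨g, hg⟩ := ht h0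
  apply hz3
  refine ⟨(t, g), ?_⟩
  funext a
  have := hg a
  rw [gl_notMem (S : Set H) γ0 x z2 (by exact_mod_cast hh0)] at this
  exact this

end core

end Pool.Agent.Q203.Jump
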