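import Pool.Agent.Q16.SQ.Stm

/-!
Project SQ: the job ALG.
-/

set_option autoImplicit false

namespace Pool.Agent.Q203.SQ

open Q16.SQ

lemma mem_iff (z : ℂ) : z ∈ algebraicClosure ℚ ℂ ↔ IsAlgebraic ℚ z := mem_algebraicClosure_iff

lemma real_iff (t : ℝ) : IsAlgebraic ℚ ((t : ℝ) : ℂ) ↔ IsAlgebraic ℚ t :=
  isAlgebraic_algebraMap_iff (R := ℚ) (A := ℂ) (S := ℝ) (algebraMap ℝ ℂ).injective

lemma root (r : ℚ) : IsAlgebraic ℚ (Complex.exp (((r : ℝ) : ℂ) * Real.pi * Complex.I)) := by
  have hd : 0 < 2 * r.den := by have := r.den_pos; omega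
  apply IsAlgebraic.of_pow hd
  have h : Complex.exp (((r : ℝ) : ℂ) * Real.pi * Complex.I) ^ (2 * r.den) = 1 := by
    rw [← Complex.exp_nat_mul]
    have e : (((2 * r.den : ℕ) : ℂ)) * (((r : ℝ) : ℂ) * Real.pi * Complex.I) =
        (r.num : ℂ) * (2 * Real.pi * Complex.I) := by
      have h1 : ((r : ℝ) : ℂ) * (r.den : ℂ) = (r.num : ℂ) := by
        have h2 : (r : ℚ) * r.den = r.num := Rat.mul_den_eq_num r
        have h3 : ((((r : ℚ) * r.den : ℚ) : ℂ)) = ((r.num : ℚ) : ℂ) := by rw [h2]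
        push_cast at h3
        exact_mod_cast h3
      push_cast
      linear_combination (2 * Real.pi * Complex.I) * h1
    rw [e]
    exact Complex.exp_int_mul_two_pi_mul_I r.num
  rw [h]
  exact isAlgebraic_one

theorem t_ALG : S_ALG := by
  constructor
  · intro m r x hx
    rw [← real_iff, ← mem_iff, Complex.ofReal_cos, Complex.cos]
    have hz : Complex.exp (x * Complex.I) ∈ algebraicClosure ℚ ℂ := (mem_iff _).2 hx
    have hw := (mem_iff _).2 (root r)
    have e : Complex.exp (((m * x + r * Real.pi : ℝ) : ℂ) * Complex.I) =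
        Complex.exp (x * Complex.I) ^ m * Complex.exp (((r : ℝ) : ℂ) * Real.pi * Complex.I) := by
      rw [← Complex.exp_int_mul, ← Complex.exp_add]
      congr 1
      push_cast
      ring
    have e' : Complex.exp (-((m * x + r * Real.pi : ℝ) : ℂ) * Complex.I) =
        (Complex.exp (x * Complex.I) ^ m *
          Complex.exp (((r : ℝ) : ℂ) * Real.pi * Complex.I))⁻¹ := by
      rw [← e, ← Complex.exp_neg]
      congr 1
      ring
    rw [e, e']
    have h1 := mul_mem (zpow_mem hz m) hw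
    have h2 : (2 : ℂ) ∈ algebraicClosure ℚ ℂ := ofNat_mem _ 2
    exact div_mem (add_mem h1 (inv_mem h1)) h2
  · intro x hx
    have hc : ((Real.cos x : ℝ) : ℂ) ∈ algebraicClosure ℚ ℂ := (mem_iff _).2 ((real_iff _).2 hx)
    have hs : ((Real.sin x : ℝ) : ℂ) ∈ algebraicClosure ℚ ℂ := by
      rw [mem_iff]
      apply IsAlgebraic.of_pow (n := 2) (by norm_num)
      rw [← mem_iff]
      have e : ((Real.sin x : ℝ) : ℂ) ^ 2 = 1 - ((Real.cos x : ℝ) : ℂ) ^ 2 := by
        have := Real.sin_sq x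
        exact_mod_cast this
      rw [e]
      exact sub_mem (one_mem _) (pow_mem hc 2)
    have hI : Complex.I ∈ algebraicClosure ℚ ℂ := by
      rw [mem_iff]
      apply IsAlgebraic.of_pow (n := 2) (by norm_num)
      rw [← mem_iff, Complex.I_sq]
      exact neg_mem (one_mem _)
    rw [← mem_iff, Complex.exp_mul_I, ← Complex.ofReal_cos, ← Complex.ofReal_sin]
    exact add_mem hc (mul_mem hs hI)

end Pool.Agent.Q203.SQ
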